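import Pool.Agent.Helper66.SB.GoalsB
import Pool.Agent.Helper18.ShghNine

/-!
# Packet SB-LG: dimension at points of the cubic
-/

set_option autoImplicit false

open Module MvPolynomial

noncomputable section

namespace Pool.Agent.Helper97.SB

open Pool.Agent.Helper66.SB Helper18.Shgh

/-- If any three values at different elements of `S` have sum at most `n`, then
`3 ∑ ≤ |S| n` (for `|S| ≥ 3`). -/
theorem three_sum {ι : Type*} (S : Finset ι) (f : ι → ℤ) (n : ℤ) (hS : 3 ≤ S.card)
    (h : ∀ i ∈ S, ∀ j ∈ S, ∀ l ∈ S, i ≠ j → j ≠ l → i ≠ l → f i + f j + f l ≤ n) :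
    3 * ∑ i ∈ S, f i ≤ S.card * n := by
  classical
  obtain ⟨m, hm⟩ : ∃ m, S.card = m + 1 := ⟨S.card - 1, by omega⟩
  have hc : Fintype.card (ZMod (m + 1)) = Fintype.card S := by
    rw [ZMod.card, Fintype.card_coe, hm]
  let e : ZMod (m + 1) ≃ S := Fintype.equivOfCardEq hc
  have hsum : ∑ i ∈ S, f i = ∑ x : ZMod (m + 1), f (e x) := by
    rw [← Finset.sum_coe_sort S f]
    exact (Equiv.sum_comp e (fun i : S => f i)).symm
  have hshift : ∀ c : ZMod (m + 1), ∑ x : ZMod (m + 1), f (e (x + c)) =
      ∑ x : ZMod (m + 1), f (e x) := by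
    intro c
    exact Equiv.sum_comp (Equiv.addRight c) (fun x => f (e x))
  have h1 : (1 : ZMod (m + 1)) ≠ 0 := by
    intro h0
    have h2 : ((1 : ℕ) : ZMod (m + 1)) = 0 := by exact_mod_cast h0
    rw [ZMod.natCast_eq_zero_iff] at h2
    have := Nat.le_of_dvd (by norm_num) h2
    omega
  have h2 : (2 : ZMod (m + 1)) ≠ 0 := by
    intro h0
    have h2 : ((2 : ℕ) : ZMod (m + 1)) = 0 := by exact_mod_cast h0
    rw [ZMod.natCast_eq_zero_iff] at h2
    have := Nat.le_of_dvd (by norm_num) h2
    omega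
  have hne : ∀ x y : ZMod (m + 1), x ≠ y → ((e x : S) : ι) ≠ e y := by
    intro x y hxy h
    exact hxy (e.injective (Subtype.ext h))
  have key : ∀ x : ZMod (m + 1), f (e x) + f (e (x + 1)) + f (e (x + 2)) ≤ n := by
    intro x
    apply h _ (e x).2 _ (e (x + 1)).2 _ (e (x + 2)).2
    · apply hne
      intro h
      exact h1 (by simpa using h.symm)
    · apply hne
      intro h
      have h3 : (1 : ZMod (m + 1)) = 2 := add_left_cancel h
      have h4 : (1 : ZMod (m + 1)) = 0 := by
        have h5 : (1 : ZMod (m + 1)) + 1 = 1 + 0 := by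
          rw [add_zero]
          nth_rewrite 3 [h3]
          norm_num
        exact add_left_cancel h5
      exact h1 h4
    · apply hne
      intro h
      exact h2 (by simpa using h.symm)
  have hfin : ∑ x : ZMod (m + 1), (f (e x) + f (e (x + 1)) + f (e (x + 2))) ≤
      ∑ _x : ZMod (m + 1), n := Finset.sum_le_sum fun x _ => key x
  rw [Finset.sum_add_distrib, Finset.sum_add_distrib, hshift, hshift, Finset.sum_const,
    Finset.card_univ, ZMod.card, nsmul_eq_mul] at hfin
  rw [hsum, hm]
  linarith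

/-- a point with a different first coordinate -/
def other (P : Fin 2 → ℂ) : Fin 2 → ℂ := ![P 0 + 1, 0]

theorem other_ne (P : Fin 2 → ℂ) : P 0 ≠ other P 0 := by
  intro h
  have : (1 : ℂ) = 0 := by
    have h2 : P 0 + 0 = P 0 + 1 := by
      rw [add_zero]; exact h
    exact (add_left_cancel h2).symm
  exact one_ne_zero this

theorem upper_small {r : ℕ} {t : Fin r → ℂ} (ht : LinearIndependent ℚ t) {n : ℤ}
    {a : Fin r → ℕ} (hA : Adm r n a) (h : (Finset.univ.filter fun i => 1 ≤ a i).card ≤ 2) :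
    2 * (finrank ℂ (SP n Finset.univ (fun i => ga (t i)) a) : ℤ) ≤ ch2 n Finset.univ a := by
  classical
  set S := Finset.univ.filter fun i => 1 ≤ a i with hSdef
  have hsum : ∑ i, (a i : ℤ) * ((a i : ℤ) + 1) = ∑ i ∈ S, (a i : ℤ) * ((a i : ℤ) + 1) := by
    symm
    apply Finset.sum_subset (Finset.subset_univ _)
    intro i _ hi
    have : a i = 0 := by
      by_contra h0
      exact hi (by simp only [hSdef, Finset.mem_filter, Finset.mem_univ, true_and]; omega)
    rw [this]
    simp
  have main : ∀ (P Q : Fin 2 → ℂ) (b c : ℕ), P 0 ≠ Q 0 →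
      ((b : ℤ) + c ≤ n + 1 ∨ (b = 0 ∧ c = 0)) →
      (SP n Finset.univ (fun i => ga (t i)) a ≤ TP n P Q b c) →
      (∑ i ∈ S, (a i : ℤ) * ((a i : ℤ) + 1) = (b : ℤ) * (b + 1) + c * (c + 1)) →
      2 * (finrank ℂ (SP n Finset.univ (fun i => ga (t i)) a) : ℤ) ≤ ch2 n Finset.univ a := by
    intro P Q b c hPQ hbc hle hs
    have h1 := finrank_TP' hPQ n hA.ge b c hbc
    have h2 : finrank ℂ (SP n Finset.univ (fun i => ga (t i)) a) ≤ finrank ℂ (TP n P Q b c) :=
      Submodule.finrank_mono hle
    have h3 : (finrank ℂ (SP n Finset.univ (fun i => ga (t i)) a) : ℤ) ≤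
      (finrank ℂ (TP n P Q b c) : ℤ) := by exact_mod_cast h2
    rw [ch2, hsum, hs]
    linarith
  have hcard : S.card = 0 ∨ S.card = 1 ∨ S.card = 2 := by omega
  rcases hcard with h0 | h1 | h2
  · have hS : S = ∅ := Finset.card_eq_zero.1 h0
    apply main 0 (other 0) 0 0 (other_ne 0) (Or.inr ⟨rfl, rfl⟩)
    · intro G hG
      rw [mem_SP] at hG
      rw [mem_TP]
      exact ⟨hG.1, by simp, by simp⟩
    · rw [hS]; simp
  · obtain ⟨i, hi⟩ := Finset.card_eq_one.1 h1
    have hiS : i ∈ S := by rw [hi]; simp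
    have hi1 : 1 ≤ a i := by
      simpa [hSdef] using hiS
    apply main (ga (t i)) (other (ga (t i))) (a i) 0 (other_ne _)
      (Or.inl (by have := hA.one i hi1; push_cast; linarith))
    · intro G hG
      rw [mem_SP] at hG
      rw [mem_TP]
      exact ⟨hG.1, hG.2 i (Finset.mem_univ _), by simp⟩
    · rw [hi]; simp
  · obtain ⟨i, j, hij, hi⟩ := Finset.card_eq_two.1 h2
    have hiS : i ∈ S := by rw [hi]; simp
    have hjS : j ∈ S := by rw [hi]; simp
    have hi1 : 1 ≤ a i := by
      simpa [hSdef] using hiS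
    have hj1 : 1 ≤ a j := by
      simpa [hSdef] using hjS
    apply main (ga (t i)) (ga (t j)) (a i) (a j)
      (by
        intro h
        exact hij (ht.injective h))
      (Or.inl (hA.two i j hij hi1 hj1))
    · intro G hG
      rw [mem_SP] at hG
      rw [mem_TP]
      exact ⟨hG.1, hG.2 i (Finset.mem_univ _), hG.2 j (Finset.mem_univ _)⟩
    · rw [hi, Finset.sum_pair hij]

theorem upper (hSTEP : G_STEP) {r : ℕ} {t : Fin r → ℂ} (ht : LinearIndependent ℚ t) (N : ℕ) :
    ∀ (n : ℤ) (a : Fin r → ℕ), n + 2 ≤ N → Adm r n a →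
    ((∑ i, (a i : ℤ) ≤ 3 * n) ∨ (Finset.univ.filter fun i => 1 ≤ a i).card ≤ 2) →
    2 * (finrank ℂ (SP n Finset.univ (fun i => ga (t i)) a) : ℤ) ≤ ch2 n Finset.univ a := by
  classical
  induction N with
  | zero =>
    intro n a hn hA h
    apply upper_small ht hA
    by_contra hc
    rw [not_le] at hc
    obtain ⟨i, hi, j, hj, l, hl, hij, hil, hjl⟩ := Finset.two_lt_card.1 hc
    simp only [Finset.mem_filter, Finset.mem_univ, true_and] at hi hj hl
    have h3 := hA.three i j l hij hjl hil hi hj hl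
    push_cast at hn
    omega
  | succ N ih =>
    intro n a hn hA h
    by_cases hc : (Finset.univ.filter fun i => 1 ≤ a i).card ≤ 2
    · exact upper_small ht hA hc
    have hsum3 : ∑ i, (a i : ℤ) ≤ 3 * n := by
      rcases h with h | h
      · exact h
      · exact absurd h hc
    rw [not_le] at hc
    obtain ⟨i0, hi, j0, hj, l0, hl, hij, hil, hjl⟩ := Finset.two_lt_card.1 hc
    simp only [Finset.mem_filter, Finset.mem_univ, true_and] at hi hj hl
    have h3 := hA.three i0 j0 l0 hij hjl hil hi hj hl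
    have hn3 : 3 ≤ n := by omega
    obtain ⟨m, rfl⟩ : ∃ m : ℕ, n = m := ⟨n.toNat, by omega⟩
    set S := Finset.univ.filter fun i => 1 ≤ a i with hSdef
    have memS : ∀ i, i ∈ S ↔ 1 ≤ a i := by
      intro i
      simp [hSdef]
    -- two further indices
    have third : ∀ i j, ∃ l, l ≠ i ∧ l ≠ j ∧ 1 ≤ a l := by
      intro i j
      have h1 : 0 < ((S.erase i).erase j).card := by
        have h2 : S.card - 1 ≤ (S.erase i).card := Finset.pred_card_le_card_erase
        have h4 : (S.erase i).card - 1 ≤ ((S.erase i).erase j).card :=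
          Finset.pred_card_le_card_erase
        omega
      obtain ⟨l, hl⟩ := Finset.card_pos.1 h1
      rw [Finset.mem_erase, Finset.mem_erase, memS] at hl
      exact ⟨l, hl.2.1, hl.1, hl.2.2⟩
    have hA' : Adm r ((m : ℤ) - 3) (fun i => a i - 1) := by
      constructor
      · omega
      · intro i hi
        obtain ⟨j, hji, -, hj⟩ := third i i
        obtain ⟨l, hli, hlj, hl⟩ := third i j
        have h4 := hA.three i j l hji.symm hlj.symm hli.symm (by omega) hj hl
        omega
      · intro i j hij hi hj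
        obtain ⟨l, hli, hlj, hl⟩ := third i j
        have h4 := hA.three i j l hij hlj.symm hli.symm (by omega) (by omega) hl
        omega
      · intro i j l hij hjl hil hi hj hl
        have h4 := hA.three i j l hij hjl hil (by omega) (by omega) (by omega)
        omega
    -- the sum
    have hsub : ∑ i, ((a i - 1 : ℕ) : ℤ) = ∑ i, (a i : ℤ) - S.card := by
      have e1 : (S.card : ℤ) = ∑ i, (if 1 ≤ a i then (1 : ℤ) else 0) := by
        rw [Finset.sum_boole]
      rw [e1, ← Finset.sum_sub_distrib]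
      apply Finset.sum_congr rfl
      intro i _
      by_cases h1 : 1 ≤ a i
      · rw [if_pos h1]
        omega
      · rw [if_neg h1]
        omega
    have hsumS : ∑ i, (a i : ℤ) = ∑ i ∈ S, (a i : ℤ) := by
      symm
      apply Finset.sum_subset (Finset.subset_univ _)
      intro i _ hi
      rw [memS] at hi
      have : a i = 0 := by omega
      rw [this]
      simp
    have h9 : ∑ i, ((a i - 1 : ℕ) : ℤ) ≤ 3 * ((m : ℤ) - 3) := by
      rw [hsub]
      by_cases h9 : 9 ≤ S.card
      · have : (9 : ℤ) ≤ S.card := by exact_mod_cast h9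
        linarith
      · have h10 := three_sum S (fun i => (a i : ℤ)) m (by omega) (by
          intro i hi j hj l hl hij hjl hil
          exact hA.three i j l hij hjl hil ((memS i).1 hi) ((memS j).1 hj) ((memS l).1 hl))
        rw [← hsumS] at h10
        have h11 : (S.card : ℤ) ≤ 9 := by
          have : S.card ≤ 9 := by omega
          exact_mod_cast this
        nlinarith
    have h12 := ih ((m : ℤ) - 3) (fun i => a i - 1) (by push_cast at hn; linarith) hA'
      (Or.inl h9)
    have hsumN : ∑ i, a i ≤ 3 * m := by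
      have : ((∑ i, a i : ℕ) : ℤ) ≤ ((3 * m : ℕ) : ℤ) := by
        push_cast
        exact hsum3
      exact_mod_cast this
    have h13 := hSTEP r t ht m a (by omega) hsumN
    have h14 : (finrank ℂ (SP (m : ℤ) Finset.univ (fun i => ga (t i)) a) : ℤ) ≤
        (finrank ℂ (SP ((m : ℤ) - 3) Finset.univ (fun i => ga (t i)) fun i => a i - 1) : ℤ) +
        (3 * m - ∑ i, (a i : ℤ)) := by
      have h15 : ((finrank ℂ (SP (m : ℤ) Finset.univ (fun i => ga (t i)) a) : ℕ) : ℤ) ≤
        ((finrank ℂ (SP ((m : ℤ) - 3) Finset.univ (fun i => ga (t i)) fun i => a i - 1) +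
        (3 * m - ∑ i, a i) : ℕ) : ℤ) := by exact_mod_cast h13
      refine h15.trans (le_of_eq ?_)
      rw [Nat.cast_add, Nat.cast_sub hsumN]
      push_cast
      ring
    have h16 : ∑ i, (a i : ℤ) * ((a i : ℤ) + 1) =
        ∑ i, ((a i - 1 : ℕ) : ℤ) * (((a i - 1 : ℕ) : ℤ) + 1) + 2 * ∑ i, (a i : ℤ) := by
      rw [Finset.mul_sum, ← Finset.sum_add_distrib]
      apply Finset.sum_congr rfl
      intro i _
      have := tri_key (a i)
      exact_mod_cast this
    have h17 : ch2 (m : ℤ) Finset.univ a = ch2 ((m : ℤ) - 3) Finset.univ (fun i => a i - 1) +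
        2 * (3 * m - ∑ i, (a i : ℤ)) := by
      rw [ch2, ch2, h16]
      ring
    rw [h17]
    linarith

theorem gLG (hLOW : G_LOW) (hSTEP : G_STEP) : G_LG := by
  intro r t ht n a hA h
  apply le_antisymm
  · exact upper hSTEP ht (n + 2).toNat n a (by have := hA.ge; omega) hA h
  · exact hLOW r n a _ hA.ge

end Pool.Agent.Helper97.SB
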